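import Mathlib
import Pool.Agent.H55.FV.StmT

set_option autoImplicit false

/-! Rows 3 - 6: polynomial inequalities (helper22). -/

namespace Pool.Agent.H22.FV

open Pool.Agent.W608.PR Pool.Agent.H55.FU Pool.Agent.H55.FV

/-- the product formula for the binomial coefficients -/
theorem ch_q (a e : ℕ) : (((e + a).choose a : ℕ) : ℚ) =
    (∏ i ∈ Finset.range e, ((a : ℚ) + 1 + i)) / (e.factorial : ℚ) := by
  induction e with
  | zero => simp
  | succ e ih =>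
    have h := Nat.add_one_mul_choose_eq (e + a) e
    have h1 : (e + a).choose e = (e + a).choose a := by
      rw [Nat.choose_symm_of_eq_add (rfl : e + a = e + a)]
    have h2 : (e + a + 1).choose (e + 1) = (e + 1 + a).choose a := by
      rw [show e + a + 1 = (e + 1) + a by ring]
      rw [Nat.choose_symm_of_eq_add (rfl : (e + 1) + a = (e + 1) + a)]
    rw [h1, h2] at h
    have h3 : ((e : ℚ) + a + 1) * (((e + a).choose a : ℕ) : ℚ) =
        (((e + 1 + a).choose a : ℕ) : ℚ) * ((e : ℚ) + 1) := by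
      exact_mod_cast h
    have h4 : ((e : ℚ) + 1) ≠ 0 := by positivity
    have h5 : (((e + 1 + a).choose a : ℕ) : ℚ) =
        ((e : ℚ) + a + 1) * (((e + a).choose a : ℕ) : ℚ) / ((e : ℚ) + 1) := by
      rw [h3]
      field_simp
    rw [h5, ih, Finset.prod_range_succ, Nat.factorial_succ]
    have h6 : (e.factorial : ℚ) ≠ 0 := by exact_mod_cast e.factorial_ne_zero
    push_cast
    field_simp
    ring

theorem Nn_q (E e : ℕ) : (Nn E e : ℚ) =
    (∏ i ∈ Finset.range e, ((E : ℚ) + 2 + i)) / (e.factorial : ℚ) := by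
  unfold Nn
  rw [show e + E + 1 = e + (E + 1) by ring, ch_q]
  congr 1
  refine Finset.prod_congr rfl fun i _ => ?_
  push_cast
  ring

theorem dm_q (E e : ℕ) : (dm E e : ℚ) =
    (∏ i ∈ Finset.range e, ((E : ℚ) + 3 + i)) / (e.factorial : ℚ) := by
  unfold dm
  rw [show e + E + 2 = e + (E + 2) by ring, ch_q]
  congr 1
  refine Finset.prod_congr rfl fun i _ => ?_
  push_cast
  ring

theorem aa3_q (E : ℕ) : (aa E 3 : ℚ) = ((E : ℚ) + 1) * (E + 2) / 2 := by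
  unfold aa
  rw [show 3 - 1 + E = 2 + E by omega, ch_q]
  simp only [Finset.prod_range_succ, Finset.prod_range_zero, Nat.factorial]
  push_cast
  ring

theorem sz3_q (E : ℕ) : (sz E 3 : ℚ) = ((E : ℚ) + 2) * (E + 3) / 2 := by
  unfold sz
  rw [show 3 + E = 2 + (E + 1) by ring, ch_q]
  simp only [Finset.prod_range_succ, Finset.prod_range_zero, Nat.factorial]
  push_cast
  ring

theorem Sz3_q (E : ℕ) : (Sz E 3 : ℚ) = ((E : ℚ) + 3) * (E + 4) / 2 := by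
  unfold Sz
  rw [show 3 + E + 1 = 2 + (E + 2) by ring, ch_q]
  simp only [Finset.prod_range_succ, Finset.prod_range_zero, Nat.factorial]
  push_cast
  ring

theorem sz2 (E : ℕ) : sz E 2 = E + 2 := by
  unfold sz
  rw [show 2 + E = (E + 1) + 1 by ring, Nat.choose_succ_self_right]

theorem sz1 (E : ℕ) : sz E 1 = 1 := by
  unfold sz
  rw [show 1 + E = E + 1 by ring, Nat.choose_self]

theorem aa2 (E : ℕ) : aa E 2 = E + 1 := by
  unfold aa
  rw [show 2 - 1 + E = E + 1 by omega, Nat.choose_succ_self_right]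

theorem aa1 (E : ℕ) : aa E 1 = 1 := by
  unfold aa
  rw [show 1 - 1 + E = E by omega, Nat.choose_self]

theorem half_q (x : ℕ) (hx : 2 ≤ x) :
    (((x - 1) * (x - 2) / 2 : ℕ) : ℚ) = ((x : ℚ) - 1) * (x - 2) / 2 := by
  obtain ⟨y, rfl⟩ : ∃ y, x = y + 2 := ⟨x - 2, by omega⟩
  have h : 2 ∣ (y + 2 - 1) * (y + 2 - 2) := by
    rw [Nat.add_sub_cancel, show y + 2 - 1 = y + 1 by omega, mul_comm]
    exact (Nat.even_mul_succ_self y).two_dvd
  rw [Nat.cast_div h (by norm_num), Nat.add_sub_cancel, show y + 2 - 1 = y + 1 by omega]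
  push_cast
  ring

theorem k1_q (E : ℕ) : (kS E 1 : ℚ) = 0 := by
  unfold kS
  rw [aa1]
  simp

theorem k2_q (E : ℕ) (_hE : 1 ≤ E) : (kS E 2 : ℚ) = (E : ℚ) * (E + 1) / 2 := by
  unfold kS
  rw [Nat.cast_add, half_q _ (by rw [aa2]; omega), aa2]
  rw [show 2 - 1 = 1 by norm_num, sz1, Nat.add_sub_cancel]
  push_cast
  ring

theorem aa3_ge (E : ℕ) (hE : 1 ≤ E) : 3 ≤ aa E 3 := by
  have h := aa3_q E
  have h1 : (1 : ℚ) ≤ E := by exact_mod_cast hE
  have h2 : (3 : ℚ) ≤ aa E 3 := by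
    rw [h]
    nlinarith
  exact_mod_cast h2

theorem k3_q (E : ℕ) (hE : 1 ≤ E) : (kS E 3 : ℚ) =
    (((E : ℚ) + 1) * (E + 2) / 2 - 1) * (E + 2) +
      (((E : ℚ) + 1) * (E + 2) / 2 - 1) * (((E : ℚ) + 1) * (E + 2) / 2 - 2) / 2 := by
  have h3 := aa3_ge E hE
  unfold kS
  rw [Nat.cast_add, half_q _ (by omega), Nat.cast_mul, Nat.cast_sub (by omega), aa3_q,
    show 3 - 1 = 2 by norm_num, sz2]
  push_cast
  ring

theorem c_q (E : ℕ) (hE : 1 ≤ E) : (cS E 3 : ℚ) =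
    (((E : ℚ) + 1) * (E + 2) / 2 - 1) * (((E : ℚ) + 2) * (E + 3) / 2 - 3) := by
  have h3 := aa3_ge E hE
  have h4 : 3 ≤ sz E 3 := by
    have h := sz3_q E
    have h1 : (1 : ℚ) ≤ E := by exact_mod_cast hE
    have h2 : (3 : ℚ) ≤ sz E 3 := by
      rw [h]
      nlinarith
    exact_mod_cast h2
  unfold cS
  rw [Nat.cast_mul, Nat.cast_sub (by omega), Nat.cast_sub h4, aa3_q, sz3_q]
  push_cast
  ring

theorem c'_q (E : ℕ) (hE : 1 ≤ E) : (cT E 3 : ℚ) =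
    (((E : ℚ) + 2) * (E + 3) / 2 - 1) * (((E : ℚ) + 3) * (E + 4) / 2 - 3) := by
  have h3 := aa3_ge (E + 1) (by omega)
  have h4 : 3 ≤ Sz E 3 := by
    have h := Sz3_q E
    have h1 : (1 : ℚ) ≤ E := by exact_mod_cast hE
    have h2 : (3 : ℚ) ≤ Sz E 3 := by
      rw [h]
      nlinarith
    exact_mod_cast h2
  unfold cT
  rw [Nat.cast_mul, Nat.cast_sub (by omega), Nat.cast_sub h4, aa3_q, Sz3_q]
  push_cast
  ring

/-- the nine inequalities over the rationals -/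
theorem toQ (E D : ℕ) (hE : 1 ≤ E) (hD : 7 ≤ D)
    (h3 : (0 : ℚ) ≤ ((E : ℚ) + 1) * (3 * Nn E 4) - 5 * (((E : ℚ) + 3) * kS E 2))
    (h4 : (0 : ℚ) ≤ ((E : ℚ) + 1) * (4 * Nn E 5) - 6 * (((E : ℚ) + 3) * kS E 3))
    (h5 : (0 : ℚ) ≤ ((E : ℚ) + 1) * (((D : ℚ) - 3) * Nn E (D - 2)) -
      ((D : ℚ) - 1) * (((E : ℚ) + 3) * ((kS E 3 + sz E 3) * sz E 3 + kS E 3 +
        (3 * (Nn E 4 + (cS E 3 + sz E 3)) + cT E 3 + ((D : ℚ) - 1) * (cS E 3 + sz E 3)))))
    (h6 : (0 : ℚ) ≤ ((D : ℚ) - 3) * Nn E (D - 1) - ((E : ℚ) + 4) * ((kS E 3 + sz E 3) * sz E 3))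
    (h7 : (0 : ℚ) < dm E D - 3 * (Sz E 3 * (dm E 4 + D * (kS E 3 + sz E 3))))
    (h8 : (0 : ℚ) ≤ Nn E D - ((dm E 4 + D * (kS E 3 + sz E 3)) * sz E 3 + kS E 3 +
        (3 * (Nn E 4 + (cS E 3 + sz E 3)) + cT E 3 + (D : ℚ) * (cS E 3 + sz E 3)))) :
    Base3 E (kS E 3) (kS E 2) (kS E 1) (cS E 3) (cT E 3) 4 D := by
  have hk1 : kS E 1 = 0 := by exact_mod_cast k1_q E
  have e1 : ((D - 1 : ℕ) : ℚ) = (D : ℚ) - 1 := by
    rw [Nat.cast_sub (by omega)]; norm_num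
  have e3 : ((D - 3 : ℕ) : ℚ) = (D : ℚ) - 3 := by
    rw [Nat.cast_sub (by omega)]; norm_num
  refine ⟨by norm_num, by omega, ?_, ?_, ?_, ?_, ?_, ?_, ?_⟩
  · rw [hk1]
    simp
  · have h : ((((4 + 1) * ((E + 3) * kS E 2) : ℕ)) : ℚ) ≤ (((E + 1) * ((4 - 1) * Nn E 4) : ℕ) : ℚ) := by
      push_cast
      linarith
    exact_mod_cast h
  · have h : ((((4 + 2) * ((E + 3) * kS E 3) : ℕ)) : ℚ) ≤ (((E + 1) * (4 * Nn E (4 + 1)) : ℕ) : ℚ) := by
      push_cast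
      linarith
    exact_mod_cast h
  · unfold Rg Xg Yg
    have h : ((((D - 1) * ((E + 3) * ((kS E 3 + sz E 3) * sz E 3 + kS E 3 +
        (3 * (Nn E 4 + (cS E 3 + sz E 3)) + cT E 3 + (D - 1) * (cS E 3 + sz E 3)))) : ℕ)) : ℚ) ≤
        (((E + 1) * ((D - 3) * Nn E (D - 2)) : ℕ) : ℚ) := by
      push_cast [e1, e3]
      linarith
    exact_mod_cast h
  · unfold Rg
    have h : ((((E + 4) * ((kS E 3 + sz E 3) * sz E 3) : ℕ)) : ℚ) ≤ (((D - 3) * Nn E (D - 1) : ℕ) : ℚ) := by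
      push_cast [e3]
      linarith
    exact_mod_cast h
  · unfold Qg Rg
    have h : (((3 * (Sz E 3 * (dm E 4 + D * (kS E 3 + sz E 3))) : ℕ)) : ℚ) < ((dm E D : ℕ) : ℚ) := by
      push_cast
      linarith
    exact_mod_cast h
  · unfold Qg Rg Xg Yg
    have h : ((((dm E 4 + D * (kS E 3 + sz E 3)) * sz E 3 + kS E 3 +
        (3 * (Nn E 4 + (cS E 3 + sz E 3)) + cT E 3 + D * (cS E 3 + sz E 3)) : ℕ)) : ℚ) ≤
        ((Nn E D : ℕ) : ℚ) := by
      push_cast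
      linarith
    exact_mod_cast h

/-- **row3** -/
theorem row3 : S_row3 := by
  intro E hE
  obtain ⟨x, rfl⟩ : ∃ x, E = x + 17 := ⟨E - 17, by omega⟩
  have h1 : 1 ≤ x + 17 := by omega
  refine toQ _ _ h1 (by norm_num) ?_ ?_ ?_ ?_ ?_ ?_
  all_goals
    simp only [Nn_q, dm_q, k2_q _ h1, k3_q _ h1, c_q _ h1, c'_q _ h1, sz3_q, Sz3_q,
      Finset.prod_range_succ, Finset.prod_range_zero, Nat.factorial]
    push_cast
    ring_nf
    positivity

/-- **row4** -/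
theorem row4 : S_row4 := by
  intro E hE
  obtain ⟨x, rfl⟩ : ∃ x, E = x + 24 := ⟨E - 24, by omega⟩
  have h1 : 1 ≤ x + 24 := by omega
  refine toQ _ _ h1 (by norm_num) ?_ ?_ ?_ ?_ ?_ ?_
  all_goals
    simp only [Nn_q, dm_q, k2_q _ h1, k3_q _ h1, c_q _ h1, c'_q _ h1, sz3_q, Sz3_q,
      Finset.prod_range_succ, Finset.prod_range_zero, Nat.factorial]
    push_cast
    ring_nf
    positivity

/-- **row5** -/
theorem row5 : S_row5 := by
  intro E hE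
  obtain ⟨x, rfl⟩ : ∃ x, E = x + 44 := ⟨E - 44, by omega⟩
  have h1 : 1 ≤ x + 44 := by omega
  refine toQ _ _ h1 (by norm_num) ?_ ?_ ?_ ?_ ?_ ?_
  all_goals
    simp only [Nn_q, dm_q, k2_q _ h1, k3_q _ h1, c_q _ h1, c'_q _ h1, sz3_q, Sz3_q,
      Finset.prod_range_succ, Finset.prod_range_zero, Nat.factorial]
    push_cast
    ring_nf
    positivity

/-- **row6** -/
theorem row6 : S_row6 := by
  intro E hE
  obtain ⟨x, rfl⟩ : ∃ x, E = x + 402 := ⟨E - 402, by omega⟩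
  have h1 : 1 ≤ x + 402 := by omega
  refine toQ _ _ h1 (by norm_num) ?_ ?_ ?_ ?_ ?_ ?_
  all_goals
    simp only [Nn_q, dm_q, k2_q _ h1, k3_q _ h1, c_q _ h1, c'_q _ h1, sz3_q, Sz3_q,
      Finset.prod_range_succ, Finset.prod_range_zero, Nat.factorial]
    push_cast
    ring_nf
    positivity

end Pool.Agent.H22.FV
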